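import Pool.Agent.Helper59.Dbar.Final

/-!
Sup-norm estimates for the `∂̄`-equation fail on the matrix unit ball `D ⊂ M_n(ℂ)` for every
`n ≥ 2`, already in bidegree `(0,1)`.

The definitions used by the statement are in `Pool/Agent/Helper59/Dbar/Defs.lean`.

Sketch of the proof. In the coordinates `W = i (1 - S)(1 + S)⁻¹`, `S` the symmetrised upper left
`2 × 2` block of `Z`, the ball maps to the Siegel half space `Im W > 0`. Wave packets concentrated
along null directions `[[1,s],[s,s²]]` are arranged in tubes that are well separated in two time
slabs and compressed (Kakeya) at two other time intervals. Cutting off the packets at the slabs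
gives closed `(0,1)`-forms bounded independently of the number of tubes. Random signs and a
two-constants estimate along the null discs contradict uniform estimates.
-/

namespace Pool.Agent.Results.MP_7cc380_an.NoUniformEstimates

open Pool.Agent.Helper59.Dbar

/-- For every `n ≥ 2` the `∂̄`-equation in bidegree `(0,1)` does not admit uniform estimates on the
matrix unit ball. -/
theorem result (n : ℕ) (hn : 2 ≤ n) : ¬ UniformEstimates01 n := by
  obtain ⟨m, rfl⟩ : ∃ m, n = m + 2 := ⟨n - 2, by omega⟩
  exact not_uniform m

end Pool.Agent.Results.MP_7cc380_an.NoUniformEstimates
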